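import Pool.Agent.H30.SY.Stm

set_option autoImplicit false

/-!
# Module DBL: doubling gives concentration about the time constant
-/

open MeasureTheory ProbabilityTheory Finset Filter
open scoped Topology Pointwise

namespace Pool.Agent.H5.SY

open Q70.Fp Pool.Agent.H30.SY

theorem tele (T a : ℕ → ℝ) (K : ℕ) (h : ∀ k < K, |T (k + 1) - 2 * T k| ≤ a k) :
    |T 0 - T K / 2 ^ K| ≤ ∑ k ∈ range K, a k / 2 ^ (k + 1) := by
  induction K with
  | zero => simp
  | succ K ih =>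
    rw [Finset.sum_range_succ]
    have h1 := ih fun k hk => h k (by omega)
    have h2 : |T K / 2 ^ K - T (K + 1) / 2 ^ (K + 1)| ≤ a K / 2 ^ (K + 1) := by
      have e : T K / 2 ^ K - T (K + 1) / 2 ^ (K + 1) = -(T (K + 1) - 2 * T K) / 2 ^ (K + 1) := by
        rw [pow_succ]
        field_simp
        ring
      rw [e, abs_div, abs_neg, abs_of_pos (show (0 : ℝ) < 2 ^ (K + 1) by positivity)]
      exact div_le_div_of_nonneg_right (h K (by omega)) (by positivity)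
    calc |T 0 - T (K + 1) / 2 ^ (K + 1)| =
          |(T 0 - T K / 2 ^ K) + (T K / 2 ^ K - T (K + 1) / 2 ^ (K + 1))| := by ring_nf
      _ ≤ |T 0 - T K / 2 ^ K| + |T K / 2 ^ K - T (K + 1) / 2 ^ (K + 1)| := abs_add_le _ _
      _ ≤ _ := add_le_add h1 h2

/-- a geometric sum -/
theorem geo {r : ℝ} (h0 : 0 ≤ r) (h1 : r < 1) (K : ℕ) : ∑ k ∈ range K, r ^ k ≤ (1 - r)⁻¹ := by
  rw [← tsum_geometric_of_lt_one h0 h1]
  exact (summable_geometric_of_lt_one h0 h1).sum_le_tsum (Finset.range K) fun _ _ => by positivity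

/-- the powers of a doubled sequence -/
theorem dbl_pow (n : ℝ) (hn : 0 ≤ n) (s : ℝ) (k : ℕ) :
    ((2 : ℝ) ^ k * n) ^ s = ((2 : ℝ) ^ s) ^ k * n ^ s := by
  rw [Real.mul_rpow (by positivity) hn, ← Real.rpow_natCast, ← Real.rpow_mul (by norm_num),
    ← Real.rpow_natCast, ← Real.rpow_mul (by norm_num), mul_comm (k : ℝ) s]

theorem core {μ : ℝ × ℝ → ℝ} (hμ : Shape μ) {s q C₀ : ℝ} (hs : s < 1) (hq : 0 < q) (hC₀ : 0 ≤ C₀)
    (h : ∀ v : ℤ × ℤ, v ≠ 0 →
      nu.real {w : Ed → ℝ | (dd 0 v : ℝ) ^ s < |TT (pw w) 0 (v + v) - 2 * TT (pw w) 0 v|} ≤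
        C₀ * (dd 0 v : ℝ) ^ (-q)) :
    ∀ v : ℤ × ℤ, v ≠ 0 →
      nu.real {w : Ed → ℝ | ((1 - (2 : ℝ) ^ (s - 1))⁻¹ + 1) * (dd 0 v : ℝ) ^ s < |TT (pw w) 0 v - mz μ v|} ≤
        C₀ * (1 - (2 : ℝ) ^ (-q))⁻¹ * (dd 0 v : ℝ) ^ (-q) := by
  intro v hv
  have hn1 : 1 ≤ dd 0 v := dd_pos hv
  have hn : (0 : ℝ) < dd 0 v := by exact_mod_cast hn1
  set n : ℝ := (dd 0 v : ℝ) with hnd
  set r : ℝ := (2 : ℝ) ^ (s - 1) with hr
  have hr0 : 0 ≤ r := by positivity
  have hr1 : r < 1 := Real.rpow_lt_one_of_one_lt_of_neg (by norm_num) (by linarith)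
  set r' : ℝ := (2 : ℝ) ^ (-q) with hr'
  have hr'0 : 0 ≤ r' := by positivity
  have hr'1 : r' < 1 := Real.rpow_lt_one_of_one_lt_of_neg (by norm_num) (by linarith)
  set vk : ℕ → ℤ × ℤ := fun k => ((2 ^ k : ℕ) : ℤ) • v with hvk
  have hvk0 : vk 0 = v := by simp [hvk]
  have hvks : ∀ k, vk k + vk k = vk (k + 1) := by
    intro k
    simp only [hvk]
    rw [← add_smul]
    congr 1
    push_cast
    ring
  have hdk : ∀ k, (dd 0 (vk k) : ℝ) = 2 ^ k * n := by
    intro k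
    have h1 := dd_smul (2 ^ k) 0 v
    rw [smul_zero] at h1
    simp only [hvk]
    rw [h1]
    push_cast
    rfl
  have hvkne : ∀ k, vk k ≠ 0 := by
    intro k h0
    have h1 := hdk k
    rw [h0, dd_self] at h1
    have h2 : (0 : ℝ) < 2 ^ k * n := by positivity
    rw [← h1] at h2
    simp at h2
  set E : ℕ → Set (Ed → ℝ) := fun k =>
    {w | (dd 0 (vk k) : ℝ) ^ s < |TT (pw w) 0 (vk k + vk k) - 2 * TT (pw w) 0 (vk k)|} with hE
  have hEk : ∀ k, nu.real (E k) ≤ C₀ * n ^ (-q) * r' ^ k := by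
    intro k
    refine (h (vk k) (hvkne k)).trans (le_of_eq ?_)
    rw [hdk k, dbl_pow n hn.le (-q) k, hr']
    ring
  have hmain : ∀ K : ℕ, nu.real {w : Ed → ℝ | ((1 - r)⁻¹ + 1) * n ^ s < |TT (pw w) 0 v - mz μ v|} ≤
      C₀ * (1 - r')⁻¹ * n ^ (-q) +
        nu.real {w | n ^ s ≤ |TT (pw w) 0 (((2 ^ K : ℕ) : ℤ) • v) / ((2 ^ K : ℕ) : ℝ) - mz μ v|} := by
    intro K
    have hsub : {w : Ed → ℝ | ((1 - r)⁻¹ + 1) * n ^ s < |TT (pw w) 0 v - mz μ v|} ⊆
        (⋃ k ∈ range K, E k) ∪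
          {w | n ^ s ≤ |TT (pw w) 0 (((2 ^ K : ℕ) : ℤ) • v) / ((2 ^ K : ℕ) : ℝ) - mz μ v|} := by
      intro w hw
      simp only [Set.mem_setOf_eq] at hw
      by_contra hcon
      rw [Set.mem_union, not_or] at hcon
      obtain ⟨hc1, hc2⟩ := hcon
      simp only [Set.mem_iUnion, not_exists, Finset.mem_range] at hc1
      simp only [Set.mem_setOf_eq, not_le] at hc2
      have h1 : ∀ k < K, |TT (pw w) 0 (vk (k + 1)) - 2 * TT (pw w) 0 (vk k)| ≤
          ((2 : ℝ) ^ k * n) ^ s := by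
        intro k hk
        have h2 := hc1 k hk
        simp only [hE, Set.mem_setOf_eq, not_lt] at h2
        rw [hvks k, hdk k] at h2
        exact h2
      have h3 := tele (fun k => TT (pw w) 0 (vk k)) (fun k => ((2 : ℝ) ^ k * n) ^ s) K h1
      simp only [hvk0] at h3
      have h4 : ∑ k ∈ range K, ((2 : ℝ) ^ k * n) ^ s / 2 ^ (k + 1) ≤ (1 - r)⁻¹ * n ^ s := by
        calc ∑ k ∈ range K, ((2 : ℝ) ^ k * n) ^ s / 2 ^ (k + 1) ≤ ∑ k ∈ range K, r ^ k * n ^ s := by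
              refine Finset.sum_le_sum fun k _ => ?_
              have h5 : ((2 : ℝ) ^ k * n) ^ s / 2 ^ k = r ^ k * n ^ s := by
                rw [dbl_pow n hn.le s k, hr, Real.rpow_sub_one (by norm_num), div_pow]
                ring
              rw [← h5]
              refine div_le_div_of_nonneg_left (by positivity) (by positivity) ?_
              exact pow_le_pow_right₀ (by norm_num) (by omega)
          _ = (∑ k ∈ range K, r ^ k) * n ^ s := by rw [Finset.sum_mul]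
          _ ≤ (1 - r)⁻¹ * n ^ s := mul_le_mul_of_nonneg_right (geo hr0 hr1 K) (by positivity)
      have h6 : TT (pw w) 0 (((2 ^ K : ℕ) : ℤ) • v) / ((2 ^ K : ℕ) : ℝ) =
          TT (pw w) 0 (vk K) / 2 ^ K := by
        simp only [hvk]
        push_cast
        rfl
      rw [h6] at hc2
      have h7 : |TT (pw w) 0 v - mz μ v| ≤ |TT (pw w) 0 v - TT (pw w) 0 (vk K) / 2 ^ K| +
          |TT (pw w) 0 (vk K) / 2 ^ K - mz μ v| := abs_sub_le _ _ _
      have h8 : ((1 - r)⁻¹ + 1) * n ^ s = (1 - r)⁻¹ * n ^ s + n ^ s := by ring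
      linarith
    refine (measureReal_mono hsub (measure_ne_top nu _)).trans ((measureReal_union_le _ _).trans ?_)
    refine add_le_add ?_ le_rfl
    refine (measureReal_biUnion_finset_le _ _).trans ?_
    calc ∑ k ∈ range K, nu.real (E k) ≤ ∑ k ∈ range K, C₀ * n ^ (-q) * r' ^ k :=
          Finset.sum_le_sum fun k _ => hEk k
      _ = C₀ * n ^ (-q) * ∑ k ∈ range K, r' ^ k := by rw [Finset.mul_sum]
      _ ≤ C₀ * n ^ (-q) * (1 - r')⁻¹ := mul_le_mul_of_nonneg_left (geo hr'0 hr'1 K) (by positivity)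
      _ = _ := by ring
  have hlim : Tendsto (fun K : ℕ => C₀ * (1 - r')⁻¹ * n ^ (-q) +
      nu.real {w | n ^ s ≤ |TT (pw w) 0 (((2 ^ K : ℕ) : ℤ) • v) / ((2 ^ K : ℕ) : ℝ) - mz μ v|}) atTop
      (𝓝 (C₀ * (1 - r')⁻¹ * n ^ (-q) + 0)) := by
    refine tendsto_const_nhds.add ?_
    exact (prob_lim hμ v (ε := n ^ s) (by positivity)).comp
      (tendsto_pow_atTop_atTop_of_one_lt (r := 2) (by norm_num))
  rw [add_zero] at hlim
  exact ge_of_tendsto' hlim hmain

/-- **Module DBL.** -/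
theorem t_DBL : S_DBL := by
  intro μ b hμ hb hb1 hD ζ hζ
  set ζ' : ℝ := min (ζ / 2) ((1 - b) / 2) with hζ'
  have h1 : 0 < ζ' := lt_min (by linarith) (by linarith)
  have h2 : ζ' ≤ ζ / 2 := min_le_left _ _
  have h3 : ζ' ≤ (1 - b) / 2 := min_le_right _ _
  obtain ⟨C₀, hC₀⟩ := hD ζ' h1
  set q : ℝ := 2 * (1 - b) - ζ' with hq
  have hq0 : 0 < q := by linarith
  have hs : b + ζ' < 1 := by linarith
  have hC : ∀ v : ℤ × ℤ, v ≠ 0 →
      nu.real {w : Ed → ℝ | (dd 0 v : ℝ) ^ (b + ζ') < |TT (pw w) 0 (v + v) - 2 * TT (pw w) 0 v|} ≤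
        |C₀| * (dd 0 v : ℝ) ^ (-q) := by
    intro v hv
    refine (hC₀ v hv).trans ?_
    have e : -(2 * (1 - b)) + ζ' = -q := by rw [hq]; ring
    rw [e]
    exact mul_le_mul_of_nonneg_right (le_abs_self _) (by positivity)
  have hcore := core hμ hs hq0 (abs_nonneg _) hC
  set C₁ : ℝ := (1 - (2 : ℝ) ^ (b + ζ' - 1))⁻¹ + 1 with hC₁
  set C₂ : ℝ := |C₀| * (1 - (2 : ℝ) ^ (-q))⁻¹ with hC₂
  have hr1 : (2 : ℝ) ^ (-q) < 1 := Real.rpow_lt_one_of_one_lt_of_neg (by norm_num) (by linarith)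
  have hC₂0 : 0 ≤ C₂ := mul_nonneg (abs_nonneg _) (inv_nonneg.2 (by linarith))
  obtain ⟨C', hC'0, hC'⟩ := of_ev
    (P := fun v => nu.real {w : Ed → ℝ | (dd 0 v : ℝ) ^ (b + ζ) < |TT (pw w) 0 v - mz μ v|})
    (fun v => measureReal_le_one) hq0 (show (0 : ℝ) < C₂ + 1 by linarith) (by
      have hlim : Tendsto (fun n : ℕ => (n : ℝ) ^ (ζ - ζ')) atTop atTop :=
        (tendsto_rpow_atTop (by linarith)).comp tendsto_natCast_atTop_atTop
      filter_upwards [hlim.eventually_ge_atTop C₁, eventually_ge_atTop 1] with n hn hn1 z hz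
      have hn0 : (0 : ℝ) < n := by exact_mod_cast hn1
      have hz0 : z ≠ 0 := by
        rintro rfl
        rw [dd_self] at hz
        omega
      have h4 := hcore z hz0
      simp only [hz] at h4 ⊢
      refine (measureReal_mono ?_ (measure_ne_top nu _)).trans (h4.trans ?_)
      · intro w hw
        simp only [Set.mem_setOf_eq] at hw ⊢
        refine lt_of_le_of_lt ?_ hw
        calc C₁ * (n : ℝ) ^ (b + ζ') ≤ (n : ℝ) ^ (ζ - ζ') * (n : ℝ) ^ (b + ζ') :=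
              mul_le_mul_of_nonneg_right hn (by positivity)
          _ = (n : ℝ) ^ (b + ζ) := by
              rw [← Real.rpow_add hn0]
              congr 1
              ring
      · exact mul_le_mul_of_nonneg_right (by linarith) (by positivity))
  refine ⟨mz μ, C', fun v hv => (hC' v hv).trans ?_⟩
  refine mul_le_mul_of_nonneg_left ?_ hC'0.le
  refine Real.rpow_le_rpow_of_exponent_le (by exact_mod_cast dd_pos hv) ?_
  rw [hq]
  linarith

end Pool.Agent.H5.SY
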