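import Pool.Agent.H30.SY.Stm6
import Pool.Agent.H50.SY.U1

set_option autoImplicit false

/-!
# Module R3: one point, upper side
-/

open MeasureTheory ProbabilityTheory Finset Filter
open scoped Topology Pointwise

namespace Pool.Agent.H5.SY

open Q70.Fp Pool.Agent.H30.SY Pool.Agent.H50.SY.U1

theorem chainR (hREV : S_REV) {v x : ℤ × ℤ} {K n : ℕ} {s : ℝ} {w : Ed → ℝ}
    (hn : dd 0 x + (K + 2) * dd 0 v ≤ n) (hB : RS w n s) :
    ∀ j : ℕ, j ≤ K → |TT w x (x + v) - TT w (x + (j:ℤ) • v) (x + (j:ℤ) • v + v)| ≤ j * s := by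
  intro j
  induction j with
  | zero => intro _; simp
  | succ j ih =>
    intro hj
    have h1 := ih (by omega)
    obtain ⟨y, hy⟩ : ∃ y, y = x + (j:ℤ) • v := ⟨_, rfl⟩
    have hy2 : x + ((j + 1 : ℕ):ℤ) • v = y + v := by
      rw [hy, Nat.cast_succ, add_smul, one_smul, add_assoc]
    rw [← hy] at h1
    rw [hy2]
    have d1 : dd 0 y ≤ dd 0 x + j * dd 0 v := by
      rw [hy]
      refine (dd_add0 _ _).trans ?_
      rw [dd_zsm]
      simp
    have d2 : dd 0 (y + v) ≤ dd 0 x + j * dd 0 v + dd 0 v := by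
      have := dd_add0 y v
      omega
    have d3 : j * dd 0 v + dd 0 v + dd 0 v ≤ (K + 2) * dd 0 v := by
      have : (j + 2) * dd 0 v ≤ (K + 2) * dd 0 v := Nat.mul_le_mul_right _ (by omega)
      nlinarith
    have b1 : y + v ∈ ball n 0 := by
      rw [mem_ball]
      omega
    have b2 : v ∈ ball n 0 := by
      rw [mem_ball]
      omega
    have k1 := hB (y + v) b1 v b2
    rw [show y + v - v = y by abel, hREV w (y + v) y] at k1
    rw [abs_le] at k1 h1 ⊢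
    push_cast
    constructor <;> nlinarith [k1.1, k1.2, h1.1, h1.2]

theorem fixR (hREV : S_REV) (v : ℤ × ℤ) (J N : ℕ) (s m t : ℝ) (hd : 3 ≤ dd 0 v) (hs : 0 ≤ s)
    (hn : (133 * J + 2) * dd 0 v ≤ N) (ht : m + 266 * J * s ≤ t) (hm : Mdn v m)
    (hp : 1 / 4 < nu.real {w | t < TT (pw w) 0 v}) :
    nu.real {w | RS (pw w) N s} ≤ 2 * (3 / 4) ^ J + 2 * J * (1 / 2) ^ dd 0 v := by
  obtain ⟨hlo, hhi⟩ := hm
  obtain ⟨d, hdd⟩ : ∃ d, d = dd 0 v := ⟨_, rfl⟩
  rw [← hdd] at hd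
  obtain ⟨c, hc⟩ : ∃ c : ℕ → ℤ × ℤ, c = fun i => 0 + ((133 * i : ℕ) : ℤ) • v := ⟨_, rfl⟩
  have hsep : ∀ i ∈ range J, ∀ j ∈ range J, i ≠ j → 2 * (66 * d) < dd (c i) (c j) := by
    intro i _ j _ hij
    rw [hc]
    simp only
    rw [dd_cc, ← hdd]
    have h1 : 133 ≤ (((133 * i : ℕ) : ℤ) - ((133 * j : ℕ) : ℤ)).natAbs := by
      push_cast
      omega
    have h2 : 133 * d ≤ (((133 * i : ℕ) : ℤ) - ((133 * j : ℕ) : ℤ)).natAbs * d :=
      Nat.mul_le_mul_right _ h1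
    omega
  have hdc : ∀ i, dd (c i) (c i + v) = d := by
    intro i
    rw [hdd]
    simp only [dd, Prod.fst_add, Prod.snd_add, Prod.fst_zero, Prod.snd_zero]
    omega
  have hp8 : ((1:ℝ) / 2) ^ d ≤ 1 / 8 := by
    have h := pow_le_pow_of_le_one (by norm_num : (0:ℝ) ≤ 1 / 2) (by norm_num : (1:ℝ) / 2 ≤ 1) hd
    refine h.trans (by norm_num)
  have l0 : nu.real {w : Ed → ℝ | TT (pw w) 0 v ≠ TB (pw w) (66 * d) 0 v} ≤ 2 * (1 / 2) ^ d :=
    Pool.Agent.H59.SY.loc 0 v (by rw [hdd])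
  have li : ∀ i, nu.real {w : Ed → ℝ | TT (pw w) (c i) (c i + v) ≠ TB (pw w) (66 * d) (c i) (c i + v)} ≤
      2 * (1 / 2) ^ d := fun i => Pool.Agent.H59.SY.loc _ _ (by rw [hdc])
  have p1 : nu.real {w : Ed → ℝ | TB (pw w) (66 * d) 0 v ∈ Set.Ioi m} ≤ 3 / 4 := by
    have hsub : {w : Ed → ℝ | TB (pw w) (66 * d) 0 v ∈ Set.Ioi m} ⊆
        {w | m < TT (pw w) 0 v} ∪ {w : Ed → ℝ | TT (pw w) 0 v ≠ TB (pw w) (66 * d) 0 v} := by
      intro w hw
      by_cases h : TT (pw w) 0 v = TB (pw w) (66 * d) 0 v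
      · left
        show m < TT (pw w) 0 v
        rw [h]
        exact hw
      · exact Or.inr h
    refine (measureReal_mono hsub (measure_ne_top nu _)).trans ((measureReal_union_le _ _).trans ?_)
    linarith
  have p2 : nu.real {w : Ed → ℝ | TB (pw w) (66 * d) 0 v ∈ Set.Iic t} ≤ 3 / 4 := by
    have hE : MeasurableSet {w : Ed → ℝ | TB (pw w) (66 * d) 0 v ∈ Set.Ioi t} :=
      (measurable_TB _ _ _) measurableSet_Ioi
    have hcompl : {w : Ed → ℝ | TB (pw w) (66 * d) 0 v ∈ Set.Iic t} =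
        {w : Ed → ℝ | TB (pw w) (66 * d) 0 v ∈ Set.Ioi t}ᶜ := by
      ext w
      show TB (pw w) (66 * d) 0 v ≤ t ↔ ¬ t < TB (pw w) (66 * d) 0 v
      exact not_lt.symm
    rw [hcompl, probReal_compl_eq_one_sub hE]
    have hsub : {w | t < TT (pw w) 0 v} ⊆ {w : Ed → ℝ | TB (pw w) (66 * d) 0 v ∈ Set.Ioi t} := by
      intro w hw
      have h1 : TT (pw w) 0 v ≤ TB (pw w) (66 * d) 0 v := TT_le_TB (pw_nonneg w) (by omega)
      have h2 : t < TT (pw w) 0 v := hw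
      exact lt_of_lt_of_le h2 h1
    have h3 := measureReal_mono hsub (measure_ne_top nu _)
    linarith
  have i1 := indep_set J d v (measurableSet_Ioi (a := m)) c hsep
  have i2 := indep_set J d v (measurableSet_Iic (a := t)) c hsep
  have q1 : nu.real {w | ∀ i ∈ range J, TB (pw w) (66 * d) (c i) (c i + v) ∈ Set.Ioi m} ≤ (3 / 4) ^ J := by
    rw [i1]
    exact pow_le_pow_left₀ measureReal_nonneg p1 J
  have q2 : nu.real {w | ∀ i ∈ range J, TB (pw w) (66 * d) (c i) (c i + v) ∈ Set.Iic t} ≤ (3 / 4) ^ J := by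
    rw [i2]
    exact pow_le_pow_left₀ measureReal_nonneg p2 J
  have q3 : nu.real (⋃ i ∈ range J, {w : Ed → ℝ | TT (pw w) (c i) (c i + v) ≠
      TB (pw w) (66 * d) (c i) (c i + v)}) ≤ J * (2 * (1 / 2) ^ d) := by
    refine (measureReal_biUnion_finset_le _ _).trans ?_
    refine (Finset.sum_le_sum fun j _ => li j).trans (le_of_eq ?_)
    rw [Finset.sum_const, Finset.card_range, nsmul_eq_mul]
  have hsub : {w | RS (pw w) N s} ⊆
      {w | ∀ i ∈ range J, TB (pw w) (66 * d) (c i) (c i + v) ∈ Set.Ioi m} ∪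
      ({w | ∀ i ∈ range J, TB (pw w) (66 * d) (c i) (c i + v) ∈ Set.Iic t} ∪
      ⋃ i ∈ range J, {w : Ed → ℝ | TT (pw w) (c i) (c i + v) ≠
      TB (pw w) (66 * d) (c i) (c i + v)}) := by
    intro w hB
    have hch : ∀ i ∈ range J, |TT (pw w) 0 (0 + v) - TT (pw w) (c i) (c i + v)| ≤ 133 * (J:ℝ) * s := by
      intro i hi
      have hi' := Finset.mem_range.1 hi
      have h := chainR (v := v) (K := 133 * J) (x := 0) hREV (by rw [dd_self]; omega) hB (133 * i) (by omega)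
      rw [hc]
      refine h.trans (mul_le_mul_of_nonneg_right ?_ hs)
      push_cast
      have : (i:ℝ) ≤ J := by exact_mod_cast hi'.le
      linarith
    by_cases hall : ∀ i ∈ range J, TT (pw w) (c i) (c i + v) = TB (pw w) (66 * d) (c i) (c i + v)
    · by_cases hgt : ∀ i ∈ range J, m < TT (pw w) (c i) (c i + v)
      · left
        intro i hi
        show m < TB (pw w) (66 * d) (c i) (c i + v)
        rw [← hall i hi]
        exact hgt i hi
      · right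
        left
        push Not at hgt
        obtain ⟨j, hj, hjm⟩ := hgt
        intro i hi
        have h1 := abs_le.1 (hch i hi)
        have h2 := abs_le.1 (hch j hj)
        show TB (pw w) (66 * d) (c i) (c i + v) ≤ t
        rw [← hall i hi]
        linarith [h1.1, h2.2]
    · right
      right
      push Not at hall
      obtain ⟨i, hi, hne⟩ := hall
      simp only [Set.mem_iUnion]
      exact ⟨i, hi, hne⟩
  refine (measureReal_mono hsub (measure_ne_top nu _)).trans ((measureReal_union_le _ _).trans ?_)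
  have h5 := measureReal_union_le (μ := nu)
    {w | ∀ i ∈ range J, TB (pw w) (66 * d) (c i) (c i + v) ∈ Set.Iic t}
    (⋃ i ∈ range J, {w : Ed → ℝ | TT (pw w) (c i) (c i + v) ≠ TB (pw w) (66 * d) (c i) (c i + v)})
  rw [← hdd]
  linarith

/-- **Module R3.** -/
theorem t_R3 (hREV : S_REV) : S_R3 := by
  intro b hb hb1 hR ζ hζ
  obtain ⟨c, hc, hev⟩ := hR (ζ / 2) (by linarith)
  obtain ⟨N0, hN0⟩ := eventually_atTop.1 hev
  obtain ⟨J, hJ⟩ := exists_pow_lt_of_lt_one (show (0:ℝ) < c / 8 by linarith)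
    (show (3 / 4 : ℝ) < 1 by norm_num)
  have hl1 : Tendsto (fun n : ℕ => (n:ℝ) ^ (ζ / 2)) atTop atTop :=
    (tendsto_rpow_atTop (by linarith)).comp tendsto_natCast_atTop_atTop
  have hl2 : Tendsto (fun n : ℕ => 2 * (J:ℝ) * (1 / 2 : ℝ) ^ n) atTop (𝓝 0) := by
    have h := (tendsto_pow_atTop_nhds_zero_of_lt_one (by norm_num : (0:ℝ) ≤ 1 / 2)
      (by norm_num : (1 / 2 : ℝ) < 1)).const_mul (2 * (J:ℝ))
    rwa [mul_zero] at h
  filter_upwards [hl1.eventually_ge_atTop (266 * J * (133 * (J:ℝ) + 2) ^ (b + ζ / 2)),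
    hl2.eventually (gt_mem_nhds (show (0:ℝ) < c / 2 by linarith)), eventually_ge_atTop N0,
    eventually_ge_atTop 3] with n hn1 hn2 hn3 hn4 v hv m hm
  by_contra hcon
  rw [not_le] at hcon
  have hn0 : (0:ℝ) < n := by
    have : 0 < n := by omega
    exact_mod_cast this
  obtain ⟨N, hN⟩ : ∃ N : ℕ, N = (133 * J + 2) * n := ⟨_, rfl⟩
  have hNn : N0 ≤ N := by nlinarith
  have h1 := hN0 N hNn
  have hs : (N:ℝ) ^ (b + ζ / 2) = (133 * (J:ℝ) + 2) ^ (b + ζ / 2) * (n:ℝ) ^ (b + ζ / 2) := by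
    rw [hN]
    push_cast
    rw [Real.mul_rpow (by positivity) hn0.le]
  have ht : m + 266 * J * (N:ℝ) ^ (b + ζ / 2) ≤ m + (n:ℝ) ^ (b + ζ) := by
    have h2 : (266 * J * (133 * (J:ℝ) + 2) ^ (b + ζ / 2)) * (n:ℝ) ^ (b + ζ / 2) ≤
        (n:ℝ) ^ (ζ / 2) * (n:ℝ) ^ (b + ζ / 2) := mul_le_mul_of_nonneg_right hn1 (by positivity)
    rw [← Real.rpow_add hn0] at h2
    have h3 : ζ / 2 + (b + ζ / 2) = b + ζ := by ring
    rw [h3] at h2
    rw [hs]
    linarith
  have h4 := fixR hREV v J N ((N:ℝ) ^ (b + ζ / 2)) m (m + (n:ℝ) ^ (b + ζ)) (by omega) (by positivity)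
    (by rw [hv, hN]) ht hm hcon
  rw [hv] at h4
  linarith

end Pool.Agent.H5.SY
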