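import Pool.Agent.H30.SY.Stm5
import Pool.Agent.H5.SY.Dbl

set_option autoImplicit false

/-!
# Module U3: passage times of a box are near the time constant
-/

open MeasureTheory ProbabilityTheory Finset Filter
open scoped Topology Pointwise

namespace Pool.Agent.H5.SY

open Q70.Fp Pool.Agent.H30.SY

theorem dd0_dbl (v : ℤ × ℤ) : dd 0 (v + v) = 2 * dd 0 v := by
  simp only [dd, Prod.fst_zero, Prod.snd_zero, Prod.fst_add, Prod.snd_add]
  omega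

theorem dd0_sub_le (u v : ℤ × ℤ) : dd 0 (v - u) ≤ dd 0 u + dd 0 v := by
  simp only [dd, Prod.fst_zero, Prod.snd_zero, Prod.fst_sub, Prod.snd_sub]
  omega

/-- the event of `Um` -/
def Ev (m : ℤ × ℤ → ℝ) (s : ℝ) (n : ℕ) : Set (Ed → ℝ) :=
  {w | ∀ x ∈ ball n 0, ∀ v ∈ ball n 0,
    |TT (pw w) x (x + v) - m v| ≤ (n:ℝ) ^ s ∧
    |TT (pw w) x (x + v + v) - 2 * TT (pw w) x (x + v)| ≤ (n:ℝ) ^ s}

theorem near {μ : ℝ × ℝ → ℝ} (hμ : Shape μ) {m : ℤ × ℤ → ℝ} {s c : ℝ} {n0 : ℕ} (hs : s < 1)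
    (hc : 0 < c) (hA : ∀ n : ℕ, n0 ≤ n → c ≤ nu.real (Ev m s n)) :
    ∃ C : ℝ, 0 ≤ C ∧ ∀ v : ℤ × ℤ, v ≠ 0 → |m v - mz μ v| ≤ C * (dd 0 v : ℝ) ^ s := by
  set a0 : ℝ := ((n0 : ℝ) + 2) ^ s with ha0
  have ha0' : 0 ≤ a0 := by positivity
  set r : ℝ := (2 : ℝ) ^ (s - 1) with hr
  have hr0 : 0 ≤ r := by positivity
  have hr1 : r < 1 := Real.rpow_lt_one_of_one_lt_of_neg (by norm_num) (by linarith)
  have hri : 0 ≤ (1 - r)⁻¹ := inv_nonneg.2 (by linarith)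
  have hpw : ∀ v : ℤ × ℤ, (((n0 + 2) * dd 0 v : ℕ) : ℝ) ^ s = a0 * (dd 0 v : ℝ) ^ s := by
    intro v
    push_cast
    rw [Real.mul_rpow (by positivity) (by positivity)]
  have hbig : ∀ v : ℤ × ℤ, v ≠ 0 → n0 ≤ (n0 + 2) * dd 0 v ∧ 2 * dd 0 v ≤ (n0 + 2) * dd 0 v := by
    intro v hv
    have h1 : 1 ≤ dd 0 v := dd_pos hv
    constructor
    · nlinarith
    · nlinarith
  have hz : ∀ n : ℕ, (0 : ℤ × ℤ) ∈ ball n 0 := fun n => mem_ball.2 (by rw [dd_self]; omega)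
  have hdb : ∀ v : ℤ × ℤ, v ≠ 0 → |m (v + v) - 2 * m v| ≤ 4 * a0 * (dd 0 v : ℝ) ^ s := by
    intro v hv
    obtain ⟨h1, h2⟩ := hbig v hv
    have h3 := hA _ h1
    have hne : (Ev m s ((n0 + 2) * dd 0 v)).Nonempty := by
      by_contra hcon
      rw [Set.not_nonempty_iff_eq_empty] at hcon
      rw [hcon, measureReal_empty] at h3
      linarith
    obtain ⟨w, hw⟩ := hne
    have h4 := hw 0 (hz _) v (mem_ball.2 (by omega))
    have h5 := (hw 0 (hz _) (v + v) (mem_ball.2 (by rw [dd0_dbl]; omega))).1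
    simp only [zero_add] at h4 h5
    obtain ⟨h6, h7⟩ := h4
    rw [hpw v] at h5 h6 h7
    rw [abs_le] at h5 h6 h7 ⊢
    constructor <;> linarith [h5.1, h5.2, h6.1, h6.2, h7.1, h7.2]
  refine ⟨4 * a0 * (1 - r)⁻¹ + a0 + 1, by positivity, ?_⟩
  intro v hv
  have hn1 : 1 ≤ dd 0 v := dd_pos hv
  have hn : (0 : ℝ) < dd 0 v := by exact_mod_cast hn1
  set n : ℝ := (dd 0 v : ℝ) with hnd
  set vk : ℕ → ℤ × ℤ := fun k => ((2 ^ k : ℕ) : ℤ) • v with hvk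
  have hvk0 : vk 0 = v := by simp [hvk]
  have hvks : ∀ k, vk k + vk k = vk (k + 1) := by
    intro k
    simp only [hvk]
    rw [← add_smul]
    congr 1
    push_cast
    ring
  have hdk : ∀ k, (dd 0 (vk k) : ℝ) = 2 ^ k * n := by
    intro k
    have h1 := dd_smul (2 ^ k) 0 v
    rw [smul_zero] at h1
    simp only [hvk]
    rw [h1]
    push_cast
    rfl
  have hvkne : ∀ k, vk k ≠ 0 := by
    intro k h0
    have h1 := hdk k
    rw [h0, dd_self] at h1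
    have h2 : (0 : ℝ) < 2 ^ k * n := by positivity
    rw [← h1] at h2
    simp at h2
  have hlim : Tendsto (fun K : ℕ =>
      nu.real {w | n ^ s ≤ |TT (pw w) 0 (((2 ^ K : ℕ) : ℤ) • v) / ((2 ^ K : ℕ) : ℝ) - mz μ v|})
      atTop (𝓝 0) :=
    (prob_lim hμ v (ε := n ^ s) (by positivity)).comp
      (tendsto_pow_atTop_atTop_of_one_lt (r := 2) (by norm_num))
  obtain ⟨K, hK⟩ := (hlim.eventually (gt_mem_nhds hc)).exists
  have hex : ∃ w ∈ Ev m s ((n0 + 2) * dd 0 (vk K)),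
      |TT (pw w) 0 (((2 ^ K : ℕ) : ℤ) • v) / ((2 ^ K : ℕ) : ℝ) - mz μ v| < n ^ s := by
    by_contra hcon
    push Not at hcon
    have h1 := hA _ (hbig _ (hvkne K)).1
    have h2 : nu.real (Ev m s ((n0 + 2) * dd 0 (vk K))) ≤
        nu.real {w | n ^ s ≤ |TT (pw w) 0 (((2 ^ K : ℕ) : ℤ) • v) / ((2 ^ K : ℕ) : ℝ) - mz μ v|} :=
      measureReal_mono (fun w hw => hcon w hw) (measure_ne_top nu _)
    linarith
  obtain ⟨w, hw, hw2⟩ := hex
  have h6 : TT (pw w) 0 (((2 ^ K : ℕ) : ℤ) • v) / ((2 ^ K : ℕ) : ℝ) =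
      TT (pw w) 0 (vk K) / 2 ^ K := by
    simp only [hvk]
    push_cast
    rfl
  rw [h6] at hw2
  have h2K : (1 : ℝ) ≤ 2 ^ K := one_le_pow₀ (by norm_num)
  have h7 : |TT (pw w) 0 (vk K) / 2 ^ K - m (vk K) / 2 ^ K| ≤ a0 * n ^ s := by
    have h8 := (hw 0 (hz _) (vk K) (mem_ball.2 (by have := (hbig _ (hvkne K)).2; omega))).1
    rw [zero_add, hpw, hdk K, Real.mul_rpow (by positivity) hn.le] at h8
    rw [← sub_div, abs_div, abs_of_pos (show (0 : ℝ) < 2 ^ K by positivity),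
      div_le_iff₀ (by positivity)]
    refine h8.trans ?_
    have h9 : ((2 : ℝ) ^ K) ^ s ≤ 2 ^ K := by
      calc ((2 : ℝ) ^ K) ^ s ≤ ((2 : ℝ) ^ K) ^ (1 : ℝ) :=
            Real.rpow_le_rpow_of_exponent_le h2K hs.le
        _ = 2 ^ K := Real.rpow_one _
    calc a0 * (((2 : ℝ) ^ K) ^ s * n ^ s) ≤ a0 * (2 ^ K * n ^ s) :=
          mul_le_mul_of_nonneg_left (mul_le_mul_of_nonneg_right h9 (by positivity)) ha0'
      _ = a0 * n ^ s * 2 ^ K := by ring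
  have h1 : ∀ k < K, |m (vk (k + 1)) - 2 * m (vk k)| ≤ 4 * a0 * ((2 : ℝ) ^ k * n) ^ s := by
    intro k _
    have h2 := hdb (vk k) (hvkne k)
    rw [hvks k, hdk k] at h2
    exact h2
  have h3 := tele (fun k => m (vk k)) (fun k => 4 * a0 * ((2 : ℝ) ^ k * n) ^ s) K h1
  simp only [hvk0] at h3
  have h4 : ∑ k ∈ range K, 4 * a0 * ((2 : ℝ) ^ k * n) ^ s / 2 ^ (k + 1) ≤
      4 * a0 * ((1 - r)⁻¹ * n ^ s) := by
    calc ∑ k ∈ range K, 4 * a0 * ((2 : ℝ) ^ k * n) ^ s / 2 ^ (k + 1) ≤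
          ∑ k ∈ range K, 4 * a0 * (r ^ k * n ^ s) := by
          refine Finset.sum_le_sum fun k _ => ?_
          have h5 : ((2 : ℝ) ^ k * n) ^ s / 2 ^ k = r ^ k * n ^ s := by
            rw [dbl_pow n hn.le s k, hr, Real.rpow_sub_one (by norm_num), div_pow]
            ring
          rw [← h5, mul_div_assoc]
          refine mul_le_mul_of_nonneg_left ?_ (by positivity)
          refine div_le_div_of_nonneg_left (by positivity) (by positivity) ?_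
          exact pow_le_pow_right₀ (by norm_num) (by omega)
      _ = 4 * a0 * ((∑ k ∈ range K, r ^ k) * n ^ s) := by rw [Finset.sum_mul, Finset.mul_sum]
      _ ≤ 4 * a0 * ((1 - r)⁻¹ * n ^ s) :=
          mul_le_mul_of_nonneg_left
            (mul_le_mul_of_nonneg_right (geo hr0 hr1 K) (by positivity)) (by positivity)
  have e : (4 * a0 * (1 - r)⁻¹ + a0 + 1) * n ^ s =
      4 * a0 * ((1 - r)⁻¹ * n ^ s) + a0 * n ^ s + n ^ s := by ring
  rw [e]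
  rw [abs_le] at h3 h7 ⊢
  rw [abs_lt] at hw2
  constructor <;> linarith [h3.1, h3.2, h7.1, h7.2, hw2.1, hw2.2]

/-- **Module U3.** -/
theorem t_U3 : S_U3 := by
  intro μ b m hμ hb hb1 hU ζ hζ
  set ζ' : ℝ := min (ζ / 2) ((1 - b) / 2) with hζ'
  have h1 : 0 < ζ' := lt_min (by linarith) (by linarith)
  have h2 : ζ' ≤ ζ / 2 := min_le_left _ _
  have h3 : ζ' ≤ (1 - b) / 2 := min_le_right _ _
  obtain ⟨c, hc, hev⟩ := hU ζ' h1
  obtain ⟨n0, hn0⟩ := eventually_atTop.1 hev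
  have hs : b + ζ' < 1 := by linarith
  have hs0 : 0 ≤ b + ζ' := by linarith
  obtain ⟨C, hC0, hC⟩ := near (m := m) (s := b + ζ') (n0 := n0) hμ hs hc hn0
  set C2 : ℝ := C + |m 0 - mz μ 0| with hC2
  have hC2' : ∀ N : ℕ, 1 ≤ N → ∀ v ∈ ball N 0, |m v - mz μ v| ≤ C2 * (N : ℝ) ^ (b + ζ') := by
    intro N hN v hv
    have hN1 : (1 : ℝ) ≤ (N : ℝ) ^ (b + ζ') :=
      Real.one_le_rpow (by exact_mod_cast hN) hs0
    by_cases h0 : v = 0
    · rw [h0]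
      nlinarith [abs_nonneg (m 0 - mz μ 0)]
    · have h4 := hC v h0
      have h5 : (dd 0 v : ℝ) ^ (b + ζ') ≤ (N : ℝ) ^ (b + ζ') :=
        Real.rpow_le_rpow (by positivity) (by exact_mod_cast mem_ball.1 hv) hs0
      calc |m v - mz μ v| ≤ C * (dd 0 v : ℝ) ^ (b + ζ') := h4
        _ ≤ C * (N : ℝ) ^ (b + ζ') := mul_le_mul_of_nonneg_left h5 hC0
        _ ≤ C2 * (N : ℝ) ^ (b + ζ') :=
            mul_le_mul_of_nonneg_right (by rw [hC2]; linarith [abs_nonneg (m 0 - mz μ 0)])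
              (by positivity)
  have hC20 : 0 ≤ C2 := by positivity
  refine ⟨c, hc, ?_⟩
  have hlim : Tendsto (fun n : ℕ => (n : ℝ) ^ (ζ - ζ')) atTop atTop :=
    (tendsto_rpow_atTop (by linarith)).comp tendsto_natCast_atTop_atTop
  filter_upwards [hlim.eventually_ge_atTop ((1 + C2) * (2 : ℝ) ^ (b + ζ')),
    eventually_ge_atTop 1, eventually_ge_atTop n0] with n hn hn1 hnn
  have hn0' : (0 : ℝ) < n := by exact_mod_cast hn1
  refine (hn0 (2 * n) (by omega)).trans (measureReal_mono ?_ (measure_ne_top nu _))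
  intro w hw u hu v hv
  have hu' := mem_ball.1 hu
  have hv' := mem_ball.1 hv
  have hvu : v - u ∈ ball (2 * n) 0 := mem_ball.2 ((dd0_sub_le u v).trans (by omega))
  have h4 := (hw u (mem_ball.2 (by omega)) (v - u) hvu).1
  rw [show u + (v - u) = v by abel] at h4
  have h5 := hC2' (2 * n) (by omega) (v - u) hvu
  have h6 : ((2 * n : ℕ) : ℝ) ^ (b + ζ') = (2 : ℝ) ^ (b + ζ') * (n : ℝ) ^ (b + ζ') := by
    push_cast
    rw [Real.mul_rpow (by norm_num) hn0'.le]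
  have h7 : |TT (pw w) u v - mz μ (v - u)| ≤
      |TT (pw w) u v - m (v - u)| + |m (v - u) - mz μ (v - u)| := abs_sub_le _ _ _
  calc |TT (pw w) u v - mz μ (v - u)| ≤ ((2 * n : ℕ) : ℝ) ^ (b + ζ') +
        C2 * ((2 * n : ℕ) : ℝ) ^ (b + ζ') := h7.trans (add_le_add h4 h5)
    _ = (1 + C2) * (2 : ℝ) ^ (b + ζ') * (n : ℝ) ^ (b + ζ') := by rw [h6]; ring
    _ ≤ (n : ℝ) ^ (ζ - ζ') * (n : ℝ) ^ (b + ζ') := mul_le_mul_of_nonneg_right hn (by positivity)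
    _ = (n : ℝ) ^ (b + ζ) := by
        rw [← Real.rpow_add hn0']
        congr 1
        ring

end Pool.Agent.H5.SY
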